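import Pool.Agent.H174.GP.StE
import Pool.Agent.H174.GP.StA
import Pool.Agent.H174.GP.StP
import Pool.Agent.H597.GP174.L1

/-! # GP, S_DLb (helper725): lower bound for the event `E1` -/

set_option autoImplicit false

open MeasureTheory ProbabilityTheory Finset Filter Topology
open scoped ENNReal

namespace Pool.Agent.H725.GP174

open Pool.Agent.H174.GP

/-! ### General lemmas on product measures -/

section gen

/-- lower bound for a product measure, without measurability -/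
theorem prod_lower {A B : Type} [MeasurableSpace A] [MeasurableSpace B] (μ : Measure A)
    (ν : Measure B) [SFinite ν] (E : Set (A × B)) (G : Set A) (c : ℝ≥0∞)
    (h : ∀ a ∈ G, c ≤ ν {b | (a, b) ∈ E}) : c * μ G ≤ (μ.prod ν) E := by
  have hTm : MeasurableSet (toMeasurable (μ.prod ν) E) := measurableSet_toMeasurable _ _
  rw [← measure_toMeasurable E, Measure.prod_apply hTm]
  have h2 : Measurable (fun a => ν (Prod.mk a ⁻¹' (toMeasurable (μ.prod ν) E))) :=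
    measurable_measure_prodMk_left hTm
  refine le_trans ?_ (mul_meas_ge_le_lintegral h2 c)
  gcongr
  intro a ha
  exact (h a ha).trans (measure_mono (fun b hb => subset_toMeasurable _ _ hb))

/-- exchange of the two middle factors -/
theorem comm4 {A B C D : Type} [MeasurableSpace A] [MeasurableSpace B] [MeasurableSpace C]
    [MeasurableSpace D] (a : Measure A) (b : Measure B) (c : Measure C) (d : Measure D)
    [SFinite a] [SFinite b] [SFinite c] [SFinite d] :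
    MeasurePreserving (fun p : (A × B) × (C × D) => ((p.1.1, p.2.1), (p.1.2, p.2.2)))
      ((a.prod b).prod (c.prod d)) ((a.prod c).prod (b.prod d)) := by
  have h1 := measurePreserving_prodAssoc a b (c.prod d)
  have h2 := (measurePreserving_prodAssoc b c d).symm
  have h3 : MeasurePreserving (Prod.map (Prod.swap : B × C → C × B) (id : D → D))
      ((b.prod c).prod d) ((c.prod b).prod d) :=
    (Measure.measurePreserving_swap (μ := b) (ν := c)).prod (MeasurePreserving.id d)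
  have h4 := measurePreserving_prodAssoc c b d
  have h5 := (measurePreserving_prodAssoc a c (b.prod d)).symm
  have h6 : MeasurePreserving (Prod.map (id : A → A) _) (a.prod (b.prod (c.prod d)))
      (a.prod (c.prod (b.prod d))) := (MeasurePreserving.id a).prod (h4.comp (h3.comp h2))
  exact h5.comp (h6.comp h1)

theorem spl_prod {A B : Type} [MeasurableSpace A] [MeasurableSpace B] (μ : Measure A)
    (ν : Measure B) [SFinite μ] [SFinite ν] (s : A × A → A) (t : B × B → B)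
    (hs : MeasurePreserving s (μ.prod μ) μ) (ht : MeasurePreserving t (ν.prod ν) ν) :
    MeasurePreserving (fun p : (A × B) × (A × B) => (s (p.1.1, p.2.1), t (p.1.2, p.2.2)))
      ((μ.prod ν).prod (μ.prod ν)) (μ.prod ν) :=
  (hs.prod ht).comp (comm4 μ ν μ ν)

/-- a measure preserving map, lower bound without measurability -/
theorem mp_le {A B : Type} [MeasurableSpace A] [MeasurableSpace B] {μ : Measure A}
    {ν : Measure B} {f : A → B} (hf : MeasurePreserving f μ ν) (s : Set B) :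
    μ (f ⁻¹' s) ≤ ν s := by
  rw [← hf.map_eq]
  exact Measure.le_map_apply hf.measurable.aemeasurable s

end gen

/-! ### Splicing -/

/-- the coordinates `≤ d` of `ω`, the others of `t` -/
noncomputable def sp (d : ℕ) (t ω : ℕ → ℝ) (j : ℕ) : ℝ := if j ≤ d then ω j else t j

theorem sp_le {d : ℕ} (t ω : ℕ → ℝ) {j : ℕ} (h : j ≤ d) : sp d t ω j = ω j := if_pos h

theorem sp_gt {d : ℕ} (t ω : ℕ → ℝ) {j : ℕ} (h : d < j) : sp d t ω j = t j :=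
  if_neg (not_le.2 h)

theorem mp_sp (d : ℕ) :
    MeasurePreserving (fun p : (ℕ → ℝ) × (ℕ → ℝ) => sp d p.1 p.2) (PP.prod PP) PP := by
  have hm : Measurable (fun p : (ℕ → ℝ) × (ℕ → ℝ) => sp d p.1 p.2) := by
    refine measurable_pi_lambda _ fun j => ?_
    by_cases h : j ≤ d
    · simp only [sp_le _ _ h]
      exact (measurable_pi_apply j).comp measurable_snd
    · simp only [sp_gt _ _ (not_le.1 h)]
      exact (measurable_pi_apply j).comp measurable_fst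
  refine ⟨hm, ?_⟩
  refine Measure.eq_infinitePi (μ := fun _ : ℕ => lap) ?_
  intro s t ht
  have hpi : ∀ u : Finset ℕ, MeasurableSet (Set.pi (u : Set ℕ) t) := fun u =>
    MeasurableSet.pi u.countable_toSet fun i _ => ht i
  rw [Measure.map_apply hm (hpi s)]
  have hpre : (fun p : (ℕ → ℝ) × (ℕ → ℝ) => sp d p.1 p.2) ⁻¹' (Set.pi (s : Set ℕ) t) =
      (Set.pi ((s.filter (fun j => ¬ j ≤ d) : Finset ℕ) : Set ℕ) t) ×ˢ
        (Set.pi ((s.filter (fun j => j ≤ d) : Finset ℕ) : Set ℕ) t) := by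
    ext p
    simp only [Set.mem_preimage, Set.mem_pi, Finset.mem_coe, Set.mem_prod, Finset.mem_filter]
    constructor
    · intro h
      refine ⟨fun i hi => ?_, fun i hi => ?_⟩
      · have := h i hi.1
        rwa [sp_gt _ _ (not_le.1 hi.2)] at this
      · have := h i hi.1
        rwa [sp_le _ _ hi.2] at this
    · rintro ⟨h1, h2⟩ i hi
      by_cases hid : i ≤ d
      · rw [sp_le _ _ hid]
        exact h2 i ⟨hi, hid⟩
      · rw [sp_gt _ _ (not_le.1 hid)]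
        exact h1 i ⟨hi, hid⟩
  rw [hpre, Measure.prod_prod]
  unfold PP
  rw [Measure.infinitePi_pi _ (fun i _ => ht i), Measure.infinitePi_pi _ (fun i _ => ht i), mul_comm]
  exact Finset.prod_filter_mul_prod_filter_not s (fun j => j ≤ d) (fun i => lap (t i))

/-- quadruples of sequences -/
abbrev Om : Type := ((ℕ → ℝ) × (ℕ → ℝ)) × ((ℕ → ℝ) × (ℕ → ℝ))

/-- splicing of quadruples -/
noncomputable def sp4 (d : ℕ) (p : Om × Om) : Om :=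
  ((sp d p.1.1.1 p.2.1.1, sp d p.1.1.2 p.2.1.2), (sp d p.1.2.1 p.2.2.1, sp d p.1.2.2 p.2.2.2))

theorem mp_sp4 (d : ℕ) : MeasurePreserving (sp4 d) (Q4.prod Q4) Q4 := by
  have h1 := spl_prod PP PP _ _ (mp_sp d) (mp_sp d)
  exact spl_prod (PP.prod PP) (PP.prod PP) _ _ h1 h1

/-! ### The conditions on the coordinates `≤ d` -/

/-- the event for the coordinates `≤ d`, for given values of the others -/
def Hd (d d' n : ℕ) (σ : ℝ) (Se : ℝ) (L : ℤ) : Set Om :=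
  {q | (∀ k ∈ Finset.Icc 1 d, (k : ℝ) * (((d' : ℝ) - d) + Se) ≤ Cg σ q.1.1 d k) ∧
    (∀ k ∈ Finset.Icc 1 d, 0 ≤ Cg σ q.2.1 d k) ∧
    (∑ j ∈ Finset.Icc 1 d, (j : ℤ) * geo σ q.1.1 j) - (∑ j ∈ Finset.Icc 1 d, (j : ℤ) * geo σ q.2.1 j)
      = (d' : ℤ) ^ 2 - (d : ℤ) ^ 2 + L ∧
    2 * (∑ j ∈ Finset.Icc 1 d, (j : ℤ) * ((gs (2 * σ) q.1.2 j : ℤ) + (gs (2 * σ) q.2.2 j : ℤ)))
      = 2 * (n : ℤ) - (d : ℤ) ^ 2 - (d' : ℤ) ^ 2 - sX σ q.1.1 d - sX σ q.2.1 d - L}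

theorem geo_sp {σ : ℝ} {d : ℕ} (t ω : ℕ → ℝ) {j : ℕ} (h : j ≤ d) :
    geo σ (sp d t ω) j = geo σ ω j := by
  unfold geo
  rw [sp_le t ω h]

theorem gs_sp {σ : ℝ} {d : ℕ} (t ω : ℕ → ℝ) {j : ℕ} (h : j ≤ d) :
    gs σ (sp d t ω) j = gs σ ω j := by
  unfold gs
  rw [sp_le t ω h]

theorem geo_sp' {σ : ℝ} {d : ℕ} (t ω : ℕ → ℝ) {j : ℕ} (h : d < j) :
    geo σ (sp d t ω) j = geo σ t j := by
  unfold geo
  rw [sp_gt t ω h]

theorem gs_sp' {σ : ℝ} {d : ℕ} (t ω : ℕ → ℝ) {j : ℕ} (h : d < j) :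
    gs σ (sp d t ω) j = gs σ t j := by
  unfold gs
  rw [sp_gt t ω h]

theorem Cg_sp {σ : ℝ} {d : ℕ} (t ω : ℕ → ℝ) (k : ℕ) : Cg σ (sp d t ω) d k = Cg σ ω d k := by
  unfold Cg Cs
  refine Finset.sum_congr rfl fun j hj => ?_
  simp only
  rw [geo_sp t ω (Finset.mem_Icc.1 hj).2]

theorem sX_sp {σ : ℝ} {d : ℕ} (t ω : ℕ → ℝ) : sX σ (sp d t ω) d = sX σ ω d := by
  unfold sX
  refine Finset.sum_congr rfl fun j hj => ?_
  rw [geo_sp t ω (Finset.mem_Icc.1 hj).2]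

theorem sum_geo_sp {σ : ℝ} {d : ℕ} (t ω : ℕ → ℝ) :
    ∑ j ∈ Finset.Icc 1 d, (j : ℤ) * geo σ (sp d t ω) j = ∑ j ∈ Finset.Icc 1 d, (j : ℤ) * geo σ ω j :=
  Finset.sum_congr rfl fun j hj => by rw [geo_sp t ω (Finset.mem_Icc.1 hj).2]

theorem eE_sp {σ : ℝ} {d : ℕ} (t ω t' ω' : ℕ → ℝ) {l : ℕ} (h : d < l) :
    eE σ (sp d t ω) (sp d t' ω') l = eE σ t t' l := by
  unfold eE
  rw [geo_sp' t ω h, gs_sp' t' ω' h]

theorem fE_sp {σ : ℝ} {d : ℕ} (t ω t' ω' : ℕ → ℝ) {l : ℕ} (h : d < l) :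
    fE σ (sp d t ω) (sp d t' ω') l = fE σ t t' l := by
  unfold fE
  rw [geo_sp' t ω h, gs_sp' t' ω' h]

theorem head_sub (d d' n : ℕ) (σ : ℝ) (t q : Om)
    (hq : q ∈ Hd d d' n σ (∑ l ∈ Finset.Ioc d d', (eE σ t.1.1 t.1.2 l : ℝ))
      (∑ l ∈ Finset.Ioc d d', (l : ℤ) * ((eE σ t.1.1 t.1.2 l : ℤ) + (fE σ t.2.1 t.2.2 l : ℤ)))) :
    sp4 d (t, q) ∈ E1 d d' n σ := by
  obtain ⟨h1, h2, h3, h4⟩ := hq
  have e1 : ∑ l ∈ Finset.Ioc d d', (eE σ (sp4 d (t, q)).1.1 (sp4 d (t, q)).1.2 l : ℝ) =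
      ∑ l ∈ Finset.Ioc d d', (eE σ t.1.1 t.1.2 l : ℝ) := by
    refine Finset.sum_congr rfl fun l hl => ?_
    have hl' := (Finset.mem_Ioc.1 hl).1
    change ((eE σ (sp d t.1.1 q.1.1) (sp d t.1.2 q.1.2) l : ℕ) : ℝ) = _
    rw [eE_sp _ _ _ _ hl']
  have e2 : ∑ l ∈ Finset.Ioc d d', (l : ℤ) * ((eE σ (sp4 d (t, q)).1.1 (sp4 d (t, q)).1.2 l : ℤ) +
      (fE σ (sp4 d (t, q)).2.1 (sp4 d (t, q)).2.2 l : ℤ)) =
      ∑ l ∈ Finset.Ioc d d', (l : ℤ) * ((eE σ t.1.1 t.1.2 l : ℤ) + (fE σ t.2.1 t.2.2 l : ℤ)) := by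
    refine Finset.sum_congr rfl fun l hl => ?_
    have hl' := (Finset.mem_Ioc.1 hl).1
    change (l : ℤ) * (((eE σ (sp d t.1.1 q.1.1) (sp d t.1.2 q.1.2) l : ℕ) : ℤ) +
      ((fE σ (sp d t.2.1 q.2.1) (sp d t.2.2 q.2.2) l : ℕ) : ℤ)) = _
    rw [eE_sp _ _ _ _ hl', fE_sp _ _ _ _ hl']
  have e3 : ∑ j ∈ Finset.Icc 1 d, (j : ℤ) * ((gs (2 * σ) (sp4 d (t, q)).1.2 j : ℤ) +
      (gs (2 * σ) (sp4 d (t, q)).2.2 j : ℤ)) =
      ∑ j ∈ Finset.Icc 1 d, (j : ℤ) * ((gs (2 * σ) q.1.2 j : ℤ) + (gs (2 * σ) q.2.2 j : ℤ)) := by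
    refine Finset.sum_congr rfl fun j hj => ?_
    have hj' := (Finset.mem_Icc.1 hj).2
    change (j : ℤ) * (((gs (2 * σ) (sp d t.1.2 q.1.2) j : ℕ) : ℤ) +
      ((gs (2 * σ) (sp d t.2.2 q.2.2) j : ℕ) : ℤ)) = _
    rw [gs_sp _ _ hj', gs_sp _ _ hj']
  refine ⟨fun k hk => ?_, fun k hk => ?_, ?_, ?_⟩
  · rw [e1]
    change _ ≤ Cg σ (sp d t.1.1 q.1.1) d k
    rw [Cg_sp]
    exact h1 k hk
  · change _ ≤ Cg σ (sp d t.2.1 q.2.1) d k
    rw [Cg_sp]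
    exact h2 k hk
  · rw [e2]
    change (∑ j ∈ Finset.Icc 1 d, (j : ℤ) * geo σ (sp d t.1.1 q.1.1) j) -
      (∑ j ∈ Finset.Icc 1 d, (j : ℤ) * geo σ (sp d t.2.1 q.2.1) j) = _
    rw [sum_geo_sp, sum_geo_sp]
    exact h3
  · rw [e2, e3]
    change _ = 2 * (n : ℤ) - (d : ℤ) ^ 2 - (d' : ℤ) ^ 2 - sX σ (sp d t.1.1 q.1.1) d -
      sX σ (sp d t.2.1 q.2.1) d - _
    rw [sX_sp, sX_sp]
    exact h4

/-! ### The tails -/

theorem coord {f : Om → ℝ} (hf : MeasurePreserving f Q4 lap) :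
    Integrable (fun t => |f t|) Q4 ∧ ∫ t, |f t| ∂Q4 = 1 := by
  have hi : Integrable (fun x : ℝ => |x|) lap := by
    have := Pool.Agent.H597.GP174.integrable_abs_pow 1
    simpa using this
  have h1 : ∫ x : ℝ, |x| ∂lap = 1 := by
    have := Pool.Agent.H597.GP174.integral_abs_pow 1
    simpa using this
  refine ⟨(hf.integrable_comp hi.aestronglyMeasurable).2 hi, ?_⟩
  rw [← h1, ← hf.map_eq, integral_map hf.measurable.aemeasurable]
  rw [hf.map_eq]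
  exact hi.aestronglyMeasurable

theorem ev (l : ℕ) : MeasurePreserving (fun ω : ℕ → ℝ => ω l) PP lap :=
  measurePreserving_eval_infinitePi (fun _ : ℕ => lap) l

theorem m11 (l : ℕ) : MeasurePreserving (fun t : Om => t.1.1 l) Q4 lap :=
  (ev l).comp (measurePreserving_fst.comp measurePreserving_fst)

theorem m12 (l : ℕ) : MeasurePreserving (fun t : Om => t.1.2 l) Q4 lap :=
  (ev l).comp (measurePreserving_snd.comp measurePreserving_fst)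

theorem m21 (l : ℕ) : MeasurePreserving (fun t : Om => t.2.1 l) Q4 lap :=
  (ev l).comp (measurePreserving_fst.comp measurePreserving_snd)

theorem m22 (l : ℕ) : MeasurePreserving (fun t : Om => t.2.2 l) Q4 lap :=
  (ev l).comp (measurePreserving_snd.comp measurePreserving_snd)

/-- the sum of the absolute values in the tails -/
noncomputable def W (d d' : ℕ) (t : Om) : ℝ :=
  ∑ l ∈ Finset.Ioc d d', (|t.1.1 l| + |t.1.2 l| + |t.2.1 l| + |t.2.2 l|)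

theorem W_int (d d' : ℕ) : Integrable (W d d') Q4 ∧ ∫ t, W d d' t ∂Q4 = 4 * ((d' - d : ℕ) : ℝ) := by
  have hi : ∀ l ∈ Finset.Ioc d d',
      Integrable (fun t : Om => |t.1.1 l| + |t.1.2 l| + |t.2.1 l| + |t.2.2 l|) Q4 := fun l _ =>
    (((coord (m11 l)).1.add (coord (m12 l)).1).add (coord (m21 l)).1).add (coord (m22 l)).1
  refine ⟨integrable_finsetSum _ hi, ?_⟩
  unfold W
  rw [integral_finsetSum _ hi]
  have h1 : ∀ l ∈ Finset.Ioc d d',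
      ∫ t : Om, (|t.1.1 l| + |t.1.2 l| + |t.2.1 l| + |t.2.2 l|) ∂Q4 = 4 := by
    intro l _
    have i2 : Integrable (fun t : Om => |t.1.1 l| + |t.1.2 l|) Q4 :=
      (coord (m11 l)).1.add (coord (m12 l)).1
    have i3 : Integrable (fun t : Om => |t.1.1 l| + |t.1.2 l| + |t.2.1 l|) Q4 :=
      i2.add (coord (m21 l)).1
    rw [integral_add i3 (coord (m22 l)).1, integral_add i2 (coord (m21 l)).1,
      integral_add (coord (m11 l)).1 (coord (m12 l)).1, (coord (m11 l)).2, (coord (m12 l)).2,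
      (coord (m21 l)).2, (coord (m22 l)).2]
    norm_num
  rw [Finset.sum_congr rfl h1, Finset.sum_const, Nat.card_Ioc, nsmul_eq_mul]
  ring

theorem W_markov (d d' : ℕ) :
    (1 / 2 : ℝ) ≤ Q4.real {t | W d d' t < 8 * (((d' - d : ℕ) : ℝ) + 1)} := by
  obtain ⟨hi, h1⟩ := W_int d d'
  have h0 : 0 ≤ᵐ[Q4] W d d' := Eventually.of_forall fun t => Finset.sum_nonneg fun l _ => by
    positivity
  have h2 := mul_meas_ge_le_integral_of_nonneg h0 hi (8 * (((d' - d : ℕ) : ℝ) + 1))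
  rw [h1] at h2
  have h3 : {t | W d d' t < 8 * (((d' - d : ℕ) : ℝ) + 1)} =
      {t | 8 * (((d' - d : ℕ) : ℝ) + 1) ≤ W d d' t}ᶜ := by
    ext t
    simp
  have hWm : Measurable (W d d') := by
    unfold W
    refine Finset.measurable_fun_sum _ fun l _ => ?_
    have a1 : Measurable (fun t : Om => t.1.1 l) := (m11 l).measurable
    have a2 : Measurable (fun t : Om => t.1.2 l) := (m12 l).measurable
    have a3 : Measurable (fun t : Om => t.2.1 l) := (m21 l).measurable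
    have a4 : Measurable (fun t : Om => t.2.2 l) := (m22 l).measurable
    exact ((a1.abs.add a2.abs).add a3.abs).add a4.abs
  have hm : MeasurableSet {t | 8 * (((d' - d : ℕ) : ℝ) + 1) ≤ W d d' t} :=
    measurableSet_le measurable_const hWm
  rw [h3, probReal_compl_eq_one_sub hm]
  have h4 : Q4.real {t | 8 * (((d' - d : ℕ) : ℝ) + 1) ≤ W d d' t} ≤ 1 / 2 := by
    have h5 : (0 : ℝ) ≤ ((d' - d : ℕ) : ℝ) := Nat.cast_nonneg _
    by_contra hcon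
    push Not at hcon
    nlinarith
  linarith

theorem gs_le {σ s1 : ℝ} {d l : ℕ} (hs1 : 0 < s1) (hσ : 0 < σ) (h : s1 ≤ σ * d) (hl : d < l)
    (ω : ℕ → ℝ) : (gs (2 * σ) ω l : ℝ) ≤ |ω l| / s1 := by
  unfold gs
  have hdl : (d : ℝ) ≤ l := by exact_mod_cast hl.le
  have h1 : s1 ≤ 2 * σ * l := by nlinarith
  refine (Nat.floor_le (by positivity)).trans ?_
  exact div_le_div_of_nonneg_left (abs_nonneg _) hs1 h1

theorem geo_le (h6 : S_Tq) {σ s1 : ℝ} {d l : ℕ} (hs1 : 0 < s1) (hσ : 0 < σ) (h : s1 ≤ σ * d)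
    (hl : d < l) (ω : ℕ → ℝ) : |(geo σ ω l : ℝ)| ≤ |ω l| / s1 + 1 := by
  have hdl : (d : ℝ) ≤ l := by exact_mod_cast hl.le
  have h1 : s1 ≤ σ * l := by nlinarith
  have h2 : 0 < σ * l := lt_of_lt_of_le hs1 h1
  have h3 := (h6 (σ * l) h2).2.2.2.2 (ω l)
  have h4 : |ω l / (σ * l)| ≤ |ω l| / s1 := by
    rw [abs_div, abs_of_pos h2]
    exact div_le_div_of_nonneg_left (abs_nonneg _) hs1 h1
  have h5 : (geo σ ω l : ℝ) = ((Tq (σ * l) (ω l) : ℝ) - ω l / (σ * l)) + ω l / (σ * l) := by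
    unfold geo
    ring
  rw [h5]
  refine (abs_add_le _ _).trans ?_
  linarith

theorem eE_le (h6 : S_Tq) {σ s1 : ℝ} {d l : ℕ} (hs1 : 0 < s1) (hσ : 0 < σ) (h : s1 ≤ σ * d)
    (hl : d < l) (ω ω' : ℕ → ℝ) : (eE σ ω ω' l : ℝ) ≤ (|ω l| + |ω' l|) / s1 + 1 := by
  have h1 := gs_le hs1 hσ h hl ω'
  have h2 := geo_le h6 hs1 hσ h hl ω
  have h3 : (((max 0 (-(geo σ ω l))).toNat : ℕ) : ℝ) ≤ |(geo σ ω l : ℝ)| := by
    have e : (((max 0 (-(geo σ ω l))).toNat : ℕ) : ℤ) ≤ |geo σ ω l| := by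
      rw [Int.toNat_of_nonneg (le_max_left _ _)]
      exact max_le (abs_nonneg _) (neg_le_abs _)
    exact_mod_cast e
  unfold eE
  push_cast
  rw [add_div]
  linarith

theorem fE_le (h6 : S_Tq) {σ s1 : ℝ} {d l : ℕ} (hs1 : 0 < s1) (hσ : 0 < σ) (h : s1 ≤ σ * d)
    (hl : d < l) (ω ω' : ℕ → ℝ) : (fE σ ω ω' l : ℝ) ≤ (|ω l| + |ω' l|) / s1 + 1 := by
  have h1 := gs_le hs1 hσ h hl ω'
  have h2 := geo_le h6 hs1 hσ h hl ω
  have h3 : (((max 0 (geo σ ω l)).toNat : ℕ) : ℝ) ≤ |(geo σ ω l : ℝ)| := by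
    have e : (((max 0 (geo σ ω l)).toNat : ℕ) : ℤ) ≤ |geo σ ω l| := by
      rw [Int.toNat_of_nonneg (le_max_left _ _)]
      exact max_le (abs_nonneg _) (le_abs_self _)
    exact_mod_cast e
  unfold fE
  push_cast
  rw [add_div]
  linarith

/-- the sum of the values in the tails -/
theorem tail_sum (h6 : S_Tq) {σ s1 : ℝ} {d d' : ℕ} (hs1 : 0 < s1) (hσ : 0 < σ) (h : s1 ≤ σ * d)
    (t : Om) (ht : W d d' t < 8 * (((d' - d : ℕ) : ℝ) + 1)) :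
    ∑ l ∈ Finset.Ioc d d', ((eE σ t.1.1 t.1.2 l : ℝ) + (fE σ t.2.1 t.2.2 l : ℝ)) ≤
      (8 / s1 + 2) * (((d' - d : ℕ) : ℝ) + 1) := by
  have h1 : ∑ l ∈ Finset.Ioc d d', ((eE σ t.1.1 t.1.2 l : ℝ) + (fE σ t.2.1 t.2.2 l : ℝ)) ≤
      ∑ l ∈ Finset.Ioc d d', ((|t.1.1 l| + |t.1.2 l| + |t.2.1 l| + |t.2.2 l|) / s1 + 2) := by
    refine Finset.sum_le_sum fun l hl => ?_
    have hl' := (Finset.mem_Ioc.1 hl).1
    have a1 := eE_le h6 hs1 hσ h hl' t.1.1 t.1.2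
    have a2 := fE_le h6 hs1 hσ h hl' t.2.1 t.2.2
    have a3 : (|t.1.1 l| + |t.1.2 l| + |t.2.1 l| + |t.2.2 l|) / s1 =
        (|t.1.1 l| + |t.1.2 l|) / s1 + (|t.2.1 l| + |t.2.2 l|) / s1 := by ring
    rw [a3]
    linarith
  refine h1.trans ?_
  rw [Finset.sum_add_distrib, ← Finset.sum_div, Finset.sum_const, Nat.card_Ioc, nsmul_eq_mul]
  have h2 : (∑ l ∈ Finset.Ioc d d', (|t.1.1 l| + |t.1.2 l| + |t.2.1 l| + |t.2.2 l|)) / s1 ≤
      8 * (((d' - d : ℕ) : ℝ) + 1) / s1 := div_le_div_of_nonneg_right ht.le hs1.le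
  have h3 : (8 / s1 + 2) * (((d' - d : ℕ) : ℝ) + 1) =
      8 * (((d' - d : ℕ) : ℝ) + 1) / s1 + ((d' - d : ℕ) : ℝ) * 2 + 2 := by ring
  rw [h3]
  linarith

/-! ### The heads -/

theorem abs_even (x : ℤ) : ∃ u : ℤ, |x| = x + 2 * u := by
  rcases abs_cases x with ⟨h, _⟩ | ⟨h, _⟩
  · exact ⟨0, by rw [h]; ring⟩
  · exact ⟨-x, by rw [h]; ring⟩

theorem sX_even (σ : ℝ) (ω : ℕ → ℝ) (d : ℕ) :
    ∃ u : ℤ, sX σ ω d = (∑ j ∈ Finset.Icc 1 d, (j : ℤ) * geo σ ω j) + 2 * u := by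
  choose u hu using abs_even
  refine ⟨∑ j ∈ Finset.Icc 1 d, (j : ℤ) * u (geo σ ω j), ?_⟩
  unfold sX
  rw [Finset.mul_sum, ← Finset.sum_add_distrib]
  refine Finset.sum_congr rfl fun j _ => ?_
  rw [hu]
  ring

theorem mu_half (d : ℕ) (σ : ℝ) (hσ : 0 < σ) : mu d (σ / 2) = m1 d σ / 2 + mu d σ := by
  unfold mu m1
  rw [Finset.sum_div, ← Finset.sum_add_distrib]
  refine Finset.sum_congr rfl fun j hj => ?_
  have hj1 : (1 : ℝ) ≤ j := by exact_mod_cast (Finset.mem_Icc.1 hj).1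
  have hx : 0 < σ * j := by nlinarith
  have e1 : Real.exp (-(2 * (σ / 2) * j)) = Real.exp (-(σ * j)) := by congr 1; ring
  have e2 : Real.exp (-(2 * σ * j)) = Real.exp (-(σ * j)) ^ 2 := by
    rw [← Real.exp_nat_mul]
    congr 1
    push_cast
    ring
  rw [e1, e2]
  have h1 : 0 < Real.exp (-(σ * j)) := Real.exp_pos _
  have h2 : Real.exp (-(σ * j)) < 1 := by
    rw [Real.exp_lt_one_iff]
    linarith
  generalize Real.exp (-(σ * j)) = x at *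
  have h3 : 1 - x ≠ 0 := by linarith
  have h4 : 1 + x ≠ 0 := by linarith
  have h5 : 1 - x ^ 2 = (1 - x) * (1 + x) := by ring
  rw [h5]
  field_simp

theorem H_lower (h2 : S_a2law) {d d' n : ℕ} {σ : ℝ} (hσ : 0 < σ) (Se : ℝ) (L : ℤ)
    (C1 R R2 c1 c2 : ℝ) (hc2 : 0 ≤ c2)
    (hQ : c1 ≤ (PP.prod PP).real {p |
        (∀ k ∈ Finset.Icc 1 d, k * (C1 * Real.sqrt d) ≤ Cg σ p.1 d k) ∧
        (∀ k ∈ Finset.Icc 1 d, 0 ≤ Cg σ p.2 d k) ∧
        (∑ j ∈ Finset.Icc 1 d, (j : ℤ) * geo σ p.1 j) -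
          (∑ j ∈ Finset.Icc 1 d, (j : ℤ) * geo σ p.2 j) = (d' : ℤ) ^ 2 - (d : ℤ) ^ 2 + L ∧
        |(sX σ p.1 d : ℝ) - m1 d σ| ≤ R ∧ |(sX σ p.2 d : ℝ) - m1 d σ| ≤ R})
    (hA : ∀ m : ℤ, |(m : ℝ) - 2 * mu d σ| ≤ R2 → c2 ≤ a2 d (2 * σ) m)
    (hR : R + |(((d' : ℤ) ^ 2 - (d : ℤ) ^ 2 + L : ℤ) : ℝ)| / 2 ≤ R2)
    (hn : (d : ℝ) ^ 2 + 2 * mu d (σ / 2) = n)
    (hS : ((d' : ℝ) - d) + Se ≤ C1 * Real.sqrt d) :
    ENNReal.ofReal (c1 * c2) ≤ Q4 (Hd d d' n σ Se L) := by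
  have hQ' : ENNReal.ofReal c1 ≤ (PP.prod PP) {p |
        (∀ k ∈ Finset.Icc 1 d, k * (C1 * Real.sqrt d) ≤ Cg σ p.1 d k) ∧
        (∀ k ∈ Finset.Icc 1 d, 0 ≤ Cg σ p.2 d k) ∧
        (∑ j ∈ Finset.Icc 1 d, (j : ℤ) * geo σ p.1 j) -
          (∑ j ∈ Finset.Icc 1 d, (j : ℤ) * geo σ p.2 j) = (d' : ℤ) ^ 2 - (d : ℤ) ^ 2 + L ∧
        |(sX σ p.1 d : ℝ) - m1 d σ| ≤ R ∧ |(sX σ p.2 d : ℝ) - m1 d σ| ≤ R} := by
    rw [← ofReal_measureReal]
    exact ENNReal.ofReal_le_ofReal hQ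
  rw [mul_comm c1 c2, ENNReal.ofReal_mul hc2]
  refine (mul_le_mul_of_nonneg_left hQ' zero_le).trans ?_
  have hcom := mp_le (comm4 PP PP PP PP) (Hd d d' n σ Se L)
  refine le_trans ?_ hcom
  refine prod_lower (PP.prod PP) (PP.prod PP) _ _ _ ?_
  rintro p ⟨g1, g2, g3, g4, g5⟩
  obtain ⟨u, hu⟩ := sX_even σ p.1 d
  obtain ⟨v, hv⟩ := sX_even σ p.2 d
  obtain ⟨m, hm⟩ : ∃ m : ℤ, 2 * m = 2 * (n : ℤ) - (d : ℤ) ^ 2 - (d' : ℤ) ^ 2 - sX σ p.1 d -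
      sX σ p.2 d - L := by
    refine ⟨(n : ℤ) - (d' : ℤ) ^ 2 - L - (∑ j ∈ Finset.Icc 1 d, (j : ℤ) * geo σ p.2 j) - u - v, ?_⟩
    rw [hu, hv]
    linarith
  have hmR : (m : ℝ) - 2 * mu d σ = -(((sX σ p.1 d : ℝ) - m1 d σ) + ((sX σ p.2 d : ℝ) - m1 d σ) +
      (((d' : ℤ) ^ 2 - (d : ℤ) ^ 2 + L : ℤ) : ℝ)) / 2 := by
    have e1 : 2 * (m : ℝ) = 2 * (n : ℝ) - (d : ℝ) ^ 2 - (d' : ℝ) ^ 2 - (sX σ p.1 d : ℝ) -
        (sX σ p.2 d : ℝ) - (L : ℝ) := by exact_mod_cast hm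
    have e2 := mu_half d σ hσ
    push_cast
    linarith
  have hb : |(m : ℝ) - 2 * mu d σ| ≤ R2 := by
    rw [hmR, abs_div, abs_neg]
    have e3 := abs_add_three ((sX σ p.1 d : ℝ) - m1 d σ) ((sX σ p.2 d : ℝ) - m1 d σ)
      (((d' : ℤ) ^ 2 - (d : ℤ) ^ 2 + L : ℤ) : ℝ)
    rw [abs_of_pos (show (0 : ℝ) < 2 by norm_num)]
    linarith
  have hc := hA m hb
  rw [h2 d (2 * σ) m (by linarith)] at hc
  refine (ENNReal.ofReal_le_ofReal hc).trans ?_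
  rw [ofReal_measureReal]
  refine measure_mono ?_
  intro b hb'
  refine ⟨fun k hk => ?_, g2, g3, ?_⟩
  · refine le_trans ?_ (g1 k hk)
    exact mul_le_mul_of_nonneg_left hS (Nat.cast_nonneg _)
  · have hb2 : (∑ j ∈ Finset.Icc 1 d, (j : ℤ) * ((gs (2 * σ) b.1 j : ℤ) + (gs (2 * σ) b.2 j : ℤ))) = m :=
      hb'
    change 2 * (∑ j ∈ Finset.Icc 1 d, (j : ℤ) * ((gs (2 * σ) b.1 j : ℤ) + (gs (2 * σ) b.2 j : ℤ))) =
      2 * (n : ℤ) - (d : ℤ) ^ 2 - (d' : ℤ) ^ 2 - sX σ p.1 d - sX σ p.2 d - L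
    rw [hb2, hm]

/-! ### Growth -/

theorem growth (C C1 ε2 ε : ℝ) (hε2 : 0 < ε2) (hε : 0 < ε) : ∃ d3 : ℕ, ∀ d ≥ d3,
    1 ≤ d ∧ C * Real.sqrt d ≤ d ∧ C1 ≤ Real.sqrt (ε2 * Real.log d) ∧
      (2 : ℝ) ≤ (d : ℝ) ^ (ε / 2) := by
  have t0 : Tendsto (fun d : ℕ => (d : ℝ)) atTop atTop := tendsto_natCast_atTop_atTop
  have t1 : Tendsto (fun d : ℕ => Real.sqrt (d : ℝ)) atTop atTop := Real.tendsto_sqrt_atTop.comp t0
  have t2 : Tendsto (fun d : ℕ => Real.sqrt (ε2 * Real.log d)) atTop atTop :=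
    Real.tendsto_sqrt_atTop.comp ((Real.tendsto_log_atTop.comp t0).const_mul_atTop hε2)
  have t3 : Tendsto (fun d : ℕ => (d : ℝ) ^ (ε / 2)) atTop atTop :=
    (tendsto_rpow_atTop (by linarith)).comp t0
  have h := (((eventually_ge_atTop 1).and (t1.eventually_ge_atTop C)).and
    ((t2.eventually_ge_atTop C1).and (t3.eventually_ge_atTop 2)))
  obtain ⟨d3, hd3⟩ := eventually_atTop.1 h
  refine ⟨d3, fun d hd => ?_⟩
  obtain ⟨⟨a1, a2⟩, a3, a4⟩ := hd3 d hd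
  refine ⟨a1, ?_, a3, a4⟩
  have e : (d : ℝ) = Real.sqrt d * Real.sqrt d := (Real.mul_self_sqrt (Nat.cast_nonneg d)).symm
  calc C * Real.sqrt d ≤ Real.sqrt d * Real.sqrt d :=
        mul_le_mul_of_nonneg_right a2 (Real.sqrt_nonneg _)
    _ = (d : ℝ) := e.symm

theorem gp_dlb (h1 : S_Q) (h2 : S_a2law) (h3 : S_a2l) (h4 : S_L3) (h5 : S_geolaw) (h6 : S_Tq) :
    Pool.Agent.H174.GP.S_DLb := by
  intro θ s1 s2 C ε hθ hT hs1 hs2 hC hε
  obtain ⟨K, hK⟩ : ∃ K : ℝ, K = (8 / s1 + 2) * (C + 1) := ⟨_, rfl⟩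
  have hK0 : 0 < K := by
    rw [hK]
    positivity
  obtain ⟨C1, hC1⟩ : ∃ C1 : ℝ, C1 = 3 * C + 2 * K + 1 := ⟨_, rfl⟩
  have hC10 : 0 < C1 := by
    rw [hC1]
    positivity
  obtain ⟨ε1, hε1, hQ⟩ := h1 θ s1 s2 C1 (ε / 4) hθ hT hs1 hs2 hC10 (by linarith)
  obtain ⟨ε2, hε2, d2, hA⟩ := h3 (2 * s1) (2 * s2) (ε / 4) (by linarith) (by linarith) (by linarith)
  obtain ⟨ε', hε'⟩ : ∃ ε' : ℝ, ε' = min ε1 (ε2 / 4) := ⟨_, rfl⟩
  have hε'0 : 0 < ε' := by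
    rw [hε']
    exact lt_min hε1 (by linarith)
  obtain ⟨d1, hQ⟩ := hQ ε' hε'0 (by rw [hε']; exact min_le_left _ _)
  obtain ⟨d3, hg⟩ := growth C C1 ε2 ε hε2 hε
  refine ⟨max d1 (max d2 d3), ?_⟩
  intro d hd d' n σ hσ hσ1 hσ2 hdd' hC' hn
  have hd1 : d ≥ d1 := (le_max_left _ _).trans hd
  have hd2 : d ≥ d2 := ((le_max_left _ _).trans (le_max_right _ _)).trans hd
  have hd3 : d ≥ d3 := ((le_max_right _ _).trans (le_max_right _ _)).trans hd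
  obtain ⟨g1, g2, g3, g4⟩ := hg d hd3
  have hdR : (1 : ℝ) ≤ d := by exact_mod_cast g1
  have hd0 : (0 : ℝ) < d := by linarith
  have hddR : (d : ℝ) ≤ d' := by exact_mod_cast hdd'
  have hsq0 : 0 ≤ Real.sqrt d := Real.sqrt_nonneg _
  have hsq1 : 1 ≤ Real.sqrt d := by
    rw [show (1 : ℝ) = Real.sqrt 1 from Real.sqrt_one.symm]
    exact Real.sqrt_le_sqrt hdR
  have hN : (((d' - d : ℕ) : ℕ) : ℝ) = (d' : ℝ) - d := Nat.cast_sub hdd'
  have hd32 : (d : ℝ) * Real.sqrt d = (d : ℝ) ^ (3 / 2 : ℝ) := by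
    rw [Real.sqrt_eq_rpow]
    nth_rewrite 1 [← Real.rpow_one (d : ℝ)]
    rw [← Real.rpow_add hd0]
    norm_num
  have hd2' : (d' : ℝ) ≤ 2 * d := by linarith
  -- the two sums over the tails
  have hSe : ∀ t : Om, W d d' t < 8 * (((d' - d : ℕ) : ℝ) + 1) →
      ∑ l ∈ Finset.Ioc d d', ((eE σ t.1.1 t.1.2 l : ℝ) + (fE σ t.2.1 t.2.2 l : ℝ)) ≤
        K * Real.sqrt d := by
    intro t ht
    refine (tail_sum h6 hs1 hσ hσ1 t ht).trans ?_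
    rw [hN, hK, mul_assoc]
    refine mul_le_mul_of_nonneg_left ?_ (by positivity)
    calc (d' : ℝ) - d + 1 ≤ C * Real.sqrt d + Real.sqrt d := add_le_add hC' hsq1
      _ = (C + 1) * Real.sqrt d := by ring
  -- the main bound
  obtain ⟨c, hc⟩ : ∃ c : ℝ, c = (d : ℝ) ^ (-(2 * θ) - 3 / 2 - ε / 4) * (d : ℝ) ^ (-(3 / 2) - ε / 4 : ℝ) :=
    ⟨_, rfl⟩
  have hmain : ∀ t ∈ {t : Om | W d d' t < 8 * (((d' - d : ℕ) : ℝ) + 1)},
      ENNReal.ofReal c ≤ Q4 {q | (t, q) ∈ (sp4 d) ⁻¹' (E1 d d' n σ)} := by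
    intro t ht
    have hsum := hSe t ht
    have hL0 : 0 ≤ ∑ l ∈ Finset.Ioc d d', (l : ℤ) *
        ((eE σ t.1.1 t.1.2 l : ℤ) + (fE σ t.2.1 t.2.2 l : ℤ)) :=
      Finset.sum_nonneg fun l _ => by positivity
    have hLR : ((∑ l ∈ Finset.Ioc d d', (l : ℤ) *
        ((eE σ t.1.1 t.1.2 l : ℤ) + (fE σ t.2.1 t.2.2 l : ℤ)) : ℤ) : ℝ) ≤
        (d' : ℝ) * (K * Real.sqrt d) := by
      push_cast
      refine le_trans ?_ (mul_le_mul_of_nonneg_left hsum (Nat.cast_nonneg d'))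
      rw [Finset.mul_sum]
      refine Finset.sum_le_sum fun l hl => ?_
      have hl' : (l : ℝ) ≤ d' := by exact_mod_cast (Finset.mem_Ioc.1 hl).2
      exact mul_le_mul_of_nonneg_right hl' (by positivity)
    have hSeR : ∑ l ∈ Finset.Ioc d d', (eE σ t.1.1 t.1.2 l : ℝ) ≤ K * Real.sqrt d := by
      refine le_trans (Finset.sum_le_sum fun l _ => ?_) hsum
      have : (0 : ℝ) ≤ (fE σ t.2.1 t.2.2 l : ℝ) := Nat.cast_nonneg _
      linarith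
    have hsub := head_sub d d' n σ t
    generalize (∑ l ∈ Finset.Ioc d d', (l : ℤ) *
        ((eE σ t.1.1 t.1.2 l : ℤ) + (fE σ t.2.1 t.2.2 l : ℤ))) = L at hL0 hLR hsub
    generalize (∑ l ∈ Finset.Ioc d d', (eE σ t.1.1 t.1.2 l : ℝ)) = Se at hSeR hsub
    have hΘ0 : 0 ≤ (d' : ℤ) ^ 2 - (d : ℤ) ^ 2 + L := by
      have : (d : ℤ) ^ 2 ≤ (d' : ℤ) ^ 2 := by
        have h0 : (d : ℤ) ≤ d' := by exact_mod_cast hdd'
        exact pow_le_pow_left₀ (Int.natCast_nonneg d) h0 2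
      linarith
    have hΘ1 : (((d' : ℤ) ^ 2 - (d : ℤ) ^ 2 + L : ℤ) : ℝ) ≤ C1 * (d : ℝ) ^ (3 / 2 : ℝ) := by
      push_cast
      rw [← hd32]
      have a1 : (d' : ℝ) ^ 2 - (d : ℝ) ^ 2 ≤ (C * Real.sqrt d) * (3 * d) := by
        have e : (d' : ℝ) ^ 2 - (d : ℝ) ^ 2 = ((d' : ℝ) - d) * (d' + d) := by ring
        rw [e]
        have b1 : 0 ≤ (d' : ℝ) - d := by linarith
        have b2 : 0 ≤ C * Real.sqrt d := by positivity
        exact mul_le_mul hC' (by linarith) (by linarith) b2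
      have a2 : (d' : ℝ) * (K * Real.sqrt d) ≤ (2 * d) * (K * Real.sqrt d) :=
        mul_le_mul_of_nonneg_right hd2' (by positivity)
      have a3 : 0 ≤ (d : ℝ) * Real.sqrt d := by positivity
      rw [hC1]
      nlinarith
    have hq := hQ d hd1 σ hσ hσ1 hσ2 _ hΘ0 hΘ1
    have hR : Real.sqrt (ε' * Real.log d) * (d : ℝ) ^ (3 / 2 : ℝ) +
        |(((d' : ℤ) ^ 2 - (d : ℤ) ^ 2 + L : ℤ) : ℝ)| / 2 ≤
        Real.sqrt (ε2 * Real.log d) * (d : ℝ) ^ (3 / 2 : ℝ) := by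
      have hlog : 0 ≤ Real.log d := Real.log_nonneg hdR
      have a1 : Real.sqrt (ε' * Real.log d) ≤ Real.sqrt (ε2 * Real.log d) / 2 := by
        have e4 : Real.sqrt (ε2 * Real.log d) / 2 = Real.sqrt (ε2 / 4 * Real.log d) := by
          have e5 : ε2 / 4 * Real.log d = ε2 * Real.log d / 2 ^ 2 := by ring
          rw [e5, Real.sqrt_div (by positivity), Real.sqrt_sq (by norm_num)]
        rw [e4]
        refine Real.sqrt_le_sqrt (mul_le_mul_of_nonneg_right ?_ hlog)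
        rw [hε']
        exact min_le_right _ _
      have hΘR : (0 : ℝ) ≤ (((d' : ℤ) ^ 2 - (d : ℤ) ^ 2 + L : ℤ) : ℝ) := by exact_mod_cast hΘ0
      rw [abs_of_nonneg hΘR]
      have a2 : 0 ≤ (d : ℝ) ^ (3 / 2 : ℝ) := by positivity
      have a3 : C1 * (d : ℝ) ^ (3 / 2 : ℝ) ≤ Real.sqrt (ε2 * Real.log d) * (d : ℝ) ^ (3 / 2 : ℝ) :=
        mul_le_mul_of_nonneg_right g3 a2
      have a4 := mul_le_mul_of_nonneg_right a1 a2
      linarith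
    have hA' : ∀ m : ℤ, |(m : ℝ) - 2 * mu d σ| ≤
        Real.sqrt (ε2 * Real.log d) * (d : ℝ) ^ (3 / 2 : ℝ) →
        (d : ℝ) ^ (-(3 / 2) - ε / 4 : ℝ) ≤ a2 d (2 * σ) m := by
      intro m hm
      refine hA d hd2 (2 * σ) (by linarith) (by linarith) (by linarith) m ?_
      have e : 2 * σ / 2 = σ := by ring
      rw [e]
      exact hm
    have hS : ((d' : ℝ) - d) + Se ≤ C1 * Real.sqrt d := by
      rw [hC1]
      nlinarith
    have hfin := H_lower h2 hσ Se L C1 _ _ _ _ (by positivity) hq hA' hR hn hS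
    rw [hc]
    exact hfin.trans (measure_mono fun q hq' => hsub q hq')
  have htot := (prod_lower Q4 Q4 _ _ _ hmain).trans (mp_le (mp_sp4 d) (E1 d d' n σ))
  have hhalf : ENNReal.ofReal (1 / 2) ≤ Q4 {t : Om | W d d' t < 8 * (((d' - d : ℕ) : ℝ) + 1)} := by
    rw [← ofReal_measureReal]
    exact ENNReal.ofReal_le_ofReal (W_markov d d')
  have hc0 : 0 ≤ c := by
    rw [hc]
    positivity
  have h7 : ENNReal.ofReal (c * (1 / 2)) ≤ Q4 (E1 d d' n σ) := by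
    rw [ENNReal.ofReal_mul hc0]
    exact (mul_le_mul_of_nonneg_left hhalf zero_le).trans htot
  have h8 : c * (1 / 2) ≤ Q4.real (E1 d d' n σ) :=
    (ENNReal.ofReal_le_iff_le_toReal (measure_ne_top _ _)).1 h7
  refine le_trans ?_ h8
  have e1 : c = (d : ℝ) ^ (-(2 * θ) - 3 - ε) * (d : ℝ) ^ (ε / 2) := by
    rw [hc, ← Real.rpow_add hd0, ← Real.rpow_add hd0]
    congr 1
    ring
  rw [e1]
  have e2 : 0 < (d : ℝ) ^ (-(2 * θ) - 3 - ε) := by positivity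
  nlinarith

end Pool.Agent.H725.GP174
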