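import Pool.Agent.H174.GP.StI
import Pool.Agent.H612.GP174.gcmp2

set_option autoImplicit false

/-! From the Laplace to the Gaussian process with general thresholds -/

open MeasureTheory ProbabilityTheory Finset Filter Topology

namespace Pool.Agent.H725.GP174

open Pool.Agent.H174.GP
open Pool.Agent.H824.GP174 (S_meas Ch_meas Wb_meas S_Wb)
open Pool.Agent.H612.GP174 (Ch_cont Ch_congr)

/-- **gcmp3** -/
theorem gp_gcmp3 (h1 : S_Zmp) (h2 : S_couple) (h3 : S_wdet) (h4 : S_cltg) :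
    Pool.Agent.H174.GP.S_gcmp3 := by
  intro n A X t hn hA hl hX
  have hnpos : (0 : ℝ) < n := by exact_mod_cast (by omega : 0 < n)
  have hη : 0 < (n : ℝ) ^ (-A) := Real.rpow_pos_of_pos hnpos _
  obtain ⟨l, hldef⟩ : ∃ l : ℝ, l = 2 * (A + 1) * Real.log n := ⟨_, rfl⟩
  have hc2 := fun (K : ℕ) (hK1 : 1 ≤ K) => h2 K n A hK1 hn hA hl
  rw [← hldef] at hl hc2 ⊢
  obtain ⟨F, hF⟩ : ∃ F : Set (ℕ → ℝ), F = {z | ∀ x ∈ X,
    t x - 32 * l ^ (3 / 2 : ℝ) * (x : ℝ) ^ (1 / 4 : ℝ) ≤ Real.sqrt 2 * Ch z n x} := ⟨_, rfl⟩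
  rw [← hF]
  have hFeq : F = ⋂ x ∈ X, {z : ℕ → ℝ |
      t x - 32 * l ^ (3 / 2 : ℝ) * (x : ℝ) ^ (1 / 4 : ℝ) ≤ Real.sqrt 2 * Ch z n x} := by
    rw [hF]
    ext z
    simp
  have hFc : IsClosed F := by
    rw [hFeq]
    exact isClosed_biInter fun x _ => isClosed_le continuous_const
      (continuous_const.mul (Ch_cont n x))
  have hFm : MeasurableSet F := by
    rw [hFeq]
    exact Finset.measurableSet_biInter _ fun x _ => measurableSet_le measurable_const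
      ((Ch_meas n x).const_mul _)
  have hdep : DepOn (Finset.Icc 1 n) F := by
    intro z z' hzz hz
    rw [hF] at hz ⊢
    intro x hx
    rw [← Ch_congr hzz]
    exact hz x hx
  obtain ⟨K0, hK0⟩ := h4 n F ((n : ℝ) ^ (-A)) hFc hdep hη
  obtain ⟨K, hKK, hK1⟩ : ∃ K : ℕ, K0 ≤ K ∧ 1 ≤ K := ⟨max K0 1, le_max_left _ _, le_max_right _ _⟩
  have hclt := hK0 K hKK
  have hWm : MeasurableSet ((fun ω : ℕ → ℝ => Wb K ω) ⁻¹' F) := (Wb_meas K) hFm
  have e1 : PP.real {ω | Wb K ω ∈ F} = PP.real ((fun ω : ℕ → ℝ => Wb K ω) ⁻¹' F) := rfl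
  rw [e1] at hclt
  -- the coupling
  have hc := hc2 K hK1
  have hK0' : (0 : ℝ) < K := by exact_mod_cast hK1
  have hsK : 0 < Real.sqrt K := Real.sqrt_pos.2 hK0'
  have hZ := h1 K hK1
  have hFst : MeasurePreserving (Prod.fst : (ℕ → ℝ) × (ℕ → ℕ) → (ℕ → ℝ)) (PP.prod (GG K)) PP :=
    measurePreserving_fst
  obtain ⟨bad, hbad⟩ : ∃ bad : Set ((ℕ → ℝ) × (ℕ → ℕ)), bad = {p | ∃ i ∈ Finset.Icc 1 n,
    Real.sqrt K * (8 * l ^ (3 / 2 : ℝ) * (i : ℝ) ^ (1 / 4 : ℝ)) <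
      |S p.1 (K * i) - Real.sqrt K * S (fun j => Z K p j) i|} := ⟨_, rfl⟩
  rw [← hbad] at hc
  have key : ∀ p ∉ bad, ∀ x ∈ Finset.Icc 1 n,
      |Real.sqrt 2 * Ch (Wb K p.1) n x - Ch (fun i => Z K p i) n x| ≤
        32 * l ^ (3 / 2 : ℝ) * (x : ℝ) ^ (1 / 4 : ℝ) := by
    intro p hp x hx
    have h5 := h3 n 1 (Wb K p.1) (fun i => Z K p i) (8 * l ^ (3 / 2 : ℝ)) le_rfl (by positivity) ?_ x hx
    · refine h5.trans (le_of_eq ?_)
      ring
    · intro i hi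
      have h5 : ¬ (Real.sqrt K * (8 * l ^ (3 / 2 : ℝ) * (i : ℝ) ^ (1 / 4 : ℝ)) <
          |S p.1 (K * i) - Real.sqrt K * S (fun j => Z K p j) i|) := fun h =>
        hp (by rw [hbad]; exact ⟨i, hi, h⟩)
      rw [not_lt] at h5
      rw [S_Wb K hK1]
      have h6 : S p.1 (K * i) / Real.sqrt K - S (fun i => Z K p i) i =
          (S p.1 (K * i) - Real.sqrt K * S (fun j => Z K p j) i) / Real.sqrt K := by
        field_simp
      rw [h6, abs_div, abs_of_pos hsK, div_le_iff₀ hsK]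
      linarith
  obtain ⟨V, hV⟩ : ∃ V : Set (ℕ → ℝ), V = {ω | ∀ x ∈ X, t x ≤ Ch ω n x} := ⟨_, rfl⟩
  rw [← hV]
  have hVm : MeasurableSet V := by
    have : V = ⋂ x ∈ X, {ω : ℕ → ℝ | t x ≤ Ch ω n x} := by
      rw [hV]
      ext ω
      simp
    rw [this]
    exact Finset.measurableSet_biInter _ fun x _ => measurableSet_le measurable_const (Ch_meas n x)
  have tr : PP.real V ≤ PP.real ((fun ω : ℕ → ℝ => Wb K ω) ⁻¹' F) + 40 * (n : ℝ) ^ (-A) := by
    rw [← hZ.measureReal_preimage hVm.nullMeasurableSet,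
      ← hFst.measureReal_preimage hWm.nullMeasurableSet]
    refine le_trans (measureReal_mono
      (s₂ := (Prod.fst ⁻¹' ((fun ω : ℕ → ℝ => Wb K ω) ⁻¹' F)) ∪ bad) ?_) ?_
    · intro p hp
      by_cases h : p ∈ bad
      · exact Or.inr h
      · left
        have hp' : (fun i => Z K p i) ∈ V := hp
        rw [hV] at hp'
        show Wb K p.1 ∈ F
        rw [hF]
        intro x hx
        have h5 := key p h x (hX hx)
        have h6 : t x ≤ Ch (fun i => Z K p i) n x := hp' x hx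
        rw [abs_le] at h5
        linarith [h5.1, h5.2]
    · exact (measureReal_union_le _ _).trans (add_le_add_right hc _)
  linarith

end Pool.Agent.H725.GP174
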